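import Mathlib
import Pool.Agent.helper10.PT.X.Base

set_option autoImplicit false

/-!
# The `p`-th cyclotomic extension of `ℚ(ω)`, all primes `p ≥ 5`
-/

namespace Pool.Agent.helper10.PI.Ex

open NumberField QuadraticAlgebra Pool.Agent.helper77.BSD Pool.Agent.helper77.Tow
  Pool.Agent.helper76.T3
open Pool.Agent.helper10.PT Pool.Agent.helper10.PT.Ex

variable {p : ℕ}

theorem irreducible_cyc (hp : p.Prime) (h5 : 5 ≤ p) : Irreducible (Polynomial.cyclotomic p kk) := by
  have : Fact p.Prime := ⟨hp⟩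
  have : NeZero p := ⟨hp.ne_zero⟩
  -- the cube root of unity in `kk`
  have hω3 : ((⟨0, 1⟩ : kk)) ^ 3 = 1 := by
    rw [pow_succ, pow_two]
    ext <;> simp [re_one, im_one]
  have hω1 : ((⟨0, 1⟩ : kk)) ≠ 1 := by
    intro h
    have := congrArg QuadraticAlgebra.im h
    simp [im_one] at this
  have hω : IsPrimitiveRoot (⟨0, 1⟩ : kk) 3 := by
    rw [IsPrimitiveRoot.iff_orderOf]
    exact orderOf_eq_prime hω3 hω1
  set K' := CyclotomicField p kk
  set ζ := IsCyclotomicExtension.zeta p kk K' with hζdef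
  have hζ : IsPrimitiveRoot ζ p := IsCyclotomicExtension.zeta_spec p kk K'
  have hω' : IsPrimitiveRoot (algebraMap kk K' ⟨0, 1⟩) 3 := hω.map_of_injective (algebraMap kk K').injective
  have hcop : Nat.Coprime 3 p := by
    rw [Nat.coprime_primes Nat.prime_three hp]
    rintro rfl
    omega
  have hη : IsPrimitiveRoot (algebraMap kk K' ⟨0, 1⟩ * ζ) (3 * p) := by
    rw [IsPrimitiveRoot.iff_orderOf, (Commute.all _ _).orderOf_mul_eq_mul_orderOf_of_coprime]
    · rw [← hω'.eq_orderOf, ← hζ.eq_orderOf]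
    · rw [← hω'.eq_orderOf, ← hζ.eq_orderOf]; exact hcop
  have h1 : (minpoly ℚ (algebraMap kk K' ⟨0, 1⟩ * ζ)).natDegree = 2 * (p - 1) := by
    rw [← Polynomial.cyclotomic_eq_minpoly_rat hη (by have := hp.pos; omega), Polynomial.natDegree_cyclotomic,
      Nat.totient_mul hcop, Nat.totient_prime Nat.prime_three, Nat.totient_prime hp]
  have h2 : (minpoly ℚ (algebraMap kk K' ⟨0, 1⟩ * ζ)).natDegree ≤ Module.finrank ℚ K' :=
    minpoly.natDegree_le _
  have h3 : Module.finrank ℚ K' = Module.finrank ℚ kk * Module.finrank kk K' :=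
    (Module.finrank_mul_finrank ℚ kk K').symm
  have h4 : Module.finrank ℚ kk = 2 := QuadraticAlgebra.finrank_eq_two _ _
  have h6 : Module.finrank kk K' = (minpoly kk ζ).natDegree := by
    rw [(hζ.powerBasis kk).finrank, ← PowerBasis.natDegree_minpoly, IsPrimitiveRoot.powerBasis_gen]
  have hdvd : minpoly kk ζ ∣ Polynomial.cyclotomic p kk := by
    apply minpoly.dvd
    exact IsCyclotomicExtension.aeval_zeta p kk K'
  have hint : IsIntegral kk ζ := Algebra.IsIntegral.isIntegral ζ
  have heq : minpoly kk ζ = Polynomial.cyclotomic p kk := by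
    refine (Polynomial.eq_of_monic_of_dvd_of_natDegree_le (minpoly.monic hint)
      (Polynomial.cyclotomic.monic p kk) hdvd ?_).symm
    rw [Polynomial.natDegree_cyclotomic, Nat.totient_prime hp]
    rw [h1, h3, h4, h6] at h2
    omega
  rw [← heq]
  exact minpoly.irreducible hint

/-- Proof: `K' := CyclotomicField p kk`; `IsCyclotomicExtension.numberField`,
`IsCyclotomicExtension.isGalois`, `IsCyclotomicExtension.finrank` with `irreducible_cyc`,
`IsCyclotomicExtension.autEquivPow` : the Galois group is isomorphic to `(ZMod p)ˣ`, cyclic. -/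
theorem exists_cyc (hp : p.Prime) (h5 : 5 ≤ p) : ∃ (K' : Type) (_ : Field K') (_ : NumberField K')
    (_ : Algebra kk K') (ζ : K'), IsGalois kk K' ∧ IsPrimitiveRoot ζ p ∧
      Module.finrank kk K' = p - 1 ∧ IsCyclic Gal(K'/kk) := by
  have : Fact p.Prime := ⟨hp⟩
  have : NeZero p := ⟨hp.ne_zero⟩
  have hirr := irreducible_cyc hp h5
  refine ⟨CyclotomicField p kk, inferInstance, inferInstance, inferInstance,
    IsCyclotomicExtension.zeta p kk (CyclotomicField p kk), IsCyclotomicExtension.isGalois {p} kk _,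
    IsCyclotomicExtension.zeta_spec p kk _, ?_, ?_⟩
  · rw [IsCyclotomicExtension.finrank (CyclotomicField p kk) hirr, Nat.totient_prime hp]
  · exact isCyclic_of_injective (IsCyclotomicExtension.autEquivPow (CyclotomicField p kk) hirr).toMonoidHom
      (IsCyclotomicExtension.autEquivPow (CyclotomicField p kk) hirr).injective

/-- Proof: `∏ (1 - a ξ)` over the primitive `p`-th roots of unity `ξ` in `ℂ` is
`(1 - a ^ p) / (1 - a)` (`IsPrimitiveRoot.pow_sub_pow_eq_prod_sub_mul`); the norm is the product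
over the embeddings `σ : K' →ₐ[kk] ℂ` (`Algebra.norm_eq_prod_embeddings`), and `σ ↦ σ ζ` is a
bijection onto the primitive roots since `minpoly kk ζ = cyclotomic p kk` (irreducible) has degree
`p - 1 = finrank kk K'`, so `ζ` generates `K'` (compare
`IsPrimitiveRoot.sub_one_norm_eq_eval_cyclotomic` in Mathlib). -/
theorem norm_one_sub (hp : p.Prime) (h5 : 5 ≤ p) {K' : Type*} [Field K'] [NumberField K'] [Algebra kk K']
    {ζ : K'} (hζ : IsPrimitiveRoot ζ p) (hK : Module.finrank kk K' = p - 1) (a : kk) :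
    (1 - a) * Algebra.norm kk (1 - algebraMap kk K' a * ζ) = 1 - a ^ p := by
  have : Fact p.Prime := ⟨hp⟩
  have : NeZero p := ⟨hp.ne_zero⟩
  have hirr := irreducible_cyc hp h5
  have hp1 : 1 ≤ p := hp.one_lt.le
  -- the minimal polynomial of `ζ`
  have hmin : minpoly kk ζ = Polynomial.cyclotomic p kk :=
    (hζ.minpoly_eq_cyclotomic_of_irreducible hirr).symm
  -- the characteristic polynomial of the multiplication by `ζ`
  set f := Algebra.lmul kk K' ζ with hf
  have hch0 : Polynomial.aeval ζ f.charpoly = 0 := by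
    have h1 := LinearMap.aeval_self_charpoly f
    have h2 : Polynomial.aeval f f.charpoly = Algebra.lmul kk K' (Polynomial.aeval ζ f.charpoly) := by
      rw [hf, Polynomial.aeval_algHom_apply]
    rw [h2] at h1
    have h3 := congrArg (fun g : Module.End kk K' => g 1) h1
    simpa using h3
  have hdvd : Polynomial.cyclotomic p kk ∣ f.charpoly := hmin ▸ minpoly.dvd kk ζ hch0
  have hch : Polynomial.cyclotomic p kk = f.charpoly := by
    refine (Polynomial.eq_of_monic_of_dvd_of_natDegree_le (Polynomial.cyclotomic.monic p kk)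
      (LinearMap.charpoly_monic f) hdvd ?_).symm
    rw [LinearMap.charpoly_natDegree, hK, Polynomial.natDegree_cyclotomic, Nat.totient_prime hp]
  have hev : ∀ x : kk, Algebra.norm kk (algebraMap kk K' x - ζ) = (Polynomial.cyclotomic p kk).eval x := by
    intro x
    rw [hch, LinearMap.eval_charpoly, Algebra.norm_apply]
    congr 1
    ext y
    simp [hf, Algebra.smul_def]
  have hcy : ∀ x : kk, (Polynomial.cyclotomic p kk).eval x * (x - 1) = x ^ p - 1 := by
    intro x
    have := congrArg (Polynomial.eval x) (Polynomial.cyclotomic_prime_mul_X_sub_one kk p)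
    simpa using this
  by_cases ha : a = 0
  · subst ha
    simp [hp.ne_zero]
  · have e1 : (1 - algebraMap kk K' a * ζ) = algebraMap kk K' a * (algebraMap kk K' a⁻¹ - ζ) := by
      rw [mul_sub, ← map_mul, mul_inv_cancel₀ ha, map_one]
    rw [e1, map_mul, Algebra.norm_algebraMap, hK, hev]
    have h1 := hcy a⁻¹
    have h2 : a ^ p = a ^ (p - 1) * a := by
      rw [← pow_succ, Nat.sub_add_cancel hp1]
    have h3 : a ^ p * (a⁻¹ ^ p - 1) = 1 - a ^ p := by
      rw [mul_sub, ← mul_pow, mul_inv_cancel₀ ha, one_pow, mul_one]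
    rw [← h3, ← h1, h2]
    have h4 : a * (a⁻¹ - 1) = 1 - a := by rw [mul_sub, mul_inv_cancel₀ ha, mul_one]
    calc (1 - a) * (a ^ (p - 1) * Polynomial.eval a⁻¹ (Polynomial.cyclotomic p kk)) =
        (a * (a⁻¹ - 1)) * (a ^ (p - 1) * Polynomial.eval a⁻¹ (Polynomial.cyclotomic p kk)) := by rw [h4]
      _ = _ := by ring

end Pool.Agent.helper10.PI.Ex
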