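import Mathlib
import Pool.Agent.helper10.PI.X.C
import Pool.Agent.helper10.PT.X.Q

set_option autoImplicit false

/-!
# Silent primes of degree one, all primes `p ≥ 5`
-/

namespace Pool.Agent.helper10.PI.Ex

open NumberField QuadraticAlgebra Pool.Agent.helper77.BSD Pool.Agent.helper77.Tow
  Pool.Agent.helper76.T3
open Pool.Agent.helper10.PT Pool.Agent.helper10.PT.Ex

variable {p : ℕ} {K' L : Type} [Field K'] [NumberField K'] [Algebra kk K']
  [Field L] [NumberField L] [Algebra kk L] [Algebra K' L] [IsScalarTower kk K' L]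

lemma xq_mod_three (hp : p.Prime) (h5 : 5 ≤ p) : p % 3 = 1 ∨ p % 3 = 2 := by
  have h : ¬ 3 ∣ p := by
    intro h
    have := (Nat.prime_dvd_prime_iff_eq Nat.prime_three hp).1 h
    omega
  omega

lemma xq_wA_pow {n : ℕ} (h : ¬ 3 ∣ n) {u : EA} (hu : u = wA ∨ u = wA ^ 2) :
    u ^ n = wA ∨ u ^ n = wA ^ 2 := by
  have h3 : u ^ 3 = 1 := by
    rcases hu with rfl | rfl
    · exact xq_wA_cube
    · rw [← pow_mul, mul_comm, pow_mul, xq_wA_cube, one_pow]
  have h4 : wA ^ 4 = wA := by decide +kernel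
  have h1 : n % 3 = 1 ∨ n % 3 = 2 := by omega
  rcases h1 with h1 | h1
  · have h2 : u ^ n = u := by
      have e : n = 3 * (n / 3) + 1 := by omega
      rw [e, pow_succ, pow_mul, h3, one_pow, one_mul]
    rw [h2]
    exact hu
  · have h2 : u ^ n = u ^ 2 := by
      have e : n = 3 * (n / 3) + 2 := by omega
      rw [e, pow_add, pow_mul, h3, one_pow, one_mul]
    rw [h2]
    rcases hu with rfl | rfl
    · exact Or.inr rfl
    · left
      rw [← pow_mul]
      exact h4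

lemma xq_u0_special (hp : p.Prime) (h5 : 5 ≤ p) {ζ : 𝓞 K'} (hζ : IsPrimitiveRoot ζ p)
    (hK : Module.finrank kk K' = p - 1) :
    u0 (nrE K' (1 + (p : 𝓞 K') * tF3 K' * ζ)) = wA ∨
      u0 (nrE K' (1 + (p : 𝓞 K') * tF3 K' * ζ)) = wA ^ 2 := by
  set N₀ := nrE K' (1 + (p : 𝓞 K') * tF3 K' * ζ) with hN₀
  have hζ' : IsPrimitiveRoot (ζ : K') p := hζ.map_of_injective RingOfIntegers.coe_injective
  have h1 := norm_one_sub hp h5 hζ' hK (ofE (-(p : EA) * tau))
  have h2 : (1 : K') - algebraMap kk K' (ofE (-(p : EA) * tau)) * (ζ : K') =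
      ((1 + (p : 𝓞 K') * tF3 K' * ζ : 𝓞 K') : K') := by
    have h3 : algebraMap (𝓞 K') K' (tF3 K') = algebraMap kk K' (ofE tau) := rfl
    simp only [map_add, map_mul, map_one, map_natCast, map_neg]
    rw [h3]
    ring
  rw [h2, ← xq_coe_nrE, ← hN₀] at h1
  have h4 : (1 - -(p : EA) * tau) * N₀ = 1 - (-(p : EA) * tau) ^ p := by
    apply ofE_injective
    rw [map_mul, map_sub, map_sub, map_one, map_pow]
    exact h1
  obtain ⟨j, hj⟩ : ∃ j, p = j + 2 := ⟨p - 2, by omega⟩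
  have ht : tau * tau = -3 := by decide +kernel
  have h6 : u0 ((1 - -(p : EA) * tau) * N₀) = u0 1 := by
    rw [h4]
    have h6 : (1 : EA) - (-(p : EA) * tau) ^ p =
        1 + 3 * ((-(p : EA) * tau) ^ j * (p : EA) ^ 2) := by
      have h7 : (-(p : EA) * tau) ^ p = (-(p : EA) * tau) ^ j * (-(p : EA) * tau) ^ 2 := by
        rw [← pow_add, ← hj]
      rw [h7]
      linear_combination -(-(p : EA) * tau) ^ j * (p : EA) ^ 2 * ht
    rw [h6, u0_add_three]
  rw [u0_mul, u0_one] at h6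
  have h10 := xq_wA_cube
  rcases xq_mod_three hp h5 with hm | hm
  · left
    obtain ⟨k, hk⟩ : ∃ k, p = 3 * k + 1 := ⟨p / 3, by omega⟩
    have h8 : u0 (1 - -(p : EA) * tau) = wA * wA := by
      have h9 : (1 : EA) - -(p : EA) * tau = (1 + tau) + 3 * ((k : EA) * tau) := by
        rw [hk]
        push_cast
        ring
      rw [h9, u0_add_three]
      decide +kernel
    rw [h8] at h6
    linear_combination wA * h6 - u0 N₀ * h10
  · right
    obtain ⟨k, hk⟩ : ∃ k, p = 3 * k + 2 := ⟨p / 3, by omega⟩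
    have h8 : u0 (1 - -(p : EA) * tau) = wA := by
      have h9 : (1 : EA) - -(p : EA) * tau = (1 + 2 * tau) + 3 * ((k : EA) * tau) := by
        rw [hk]
        push_cast
        ring
      rw [h9, u0_add_three]
      decide +kernel
    rw [h8] at h6
    linear_combination wA ^ 2 * h6 - u0 N₀ * h10

/-- the norm of `1 + p √-3 ζ` -/
theorem nrE_special (hp : p.Prime) (h5 : 5 ≤ p) {ζ : 𝓞 K'} (hζ : IsPrimitiveRoot ζ p)
    (hK : Module.finrank kk K' = p - 1) (hL : ∃ n, Module.finrank K' L = p ^ n) :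
    ∃ u : EA, (u = wA ∨ u = wA ^ 2) ∧
      (3 : EA) ∣ nrE L (1 + (p : 𝓞 L) * tF3 L * algebraMap (𝓞 K') (𝓞 L) ζ) - u := by
  obtain ⟨n, hn⟩ := hL
  have h1 : (1 + (p : 𝓞 L) * tF3 L * algebraMap (𝓞 K') (𝓞 L) ζ) =
      algebraMap (𝓞 K') (𝓞 L) (1 + (p : 𝓞 K') * tF3 K' * ζ) := by
    have h2 : tF3 L = algebraMap (𝓞 K') (𝓞 L) (tF3 K') := by
      apply RingOfIntegers.ext
      exact IsScalarTower.algebraMap_apply kk K' L (ofE tau)
    rw [h2, map_add, map_mul, map_mul, map_one, map_natCast]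
  have hpn : ¬ 3 ∣ p ^ n := by
    intro h
    have h2 := (Nat.prime_dvd_prime_iff_eq Nat.prime_three hp).1 (Nat.prime_three.dvd_of_dvd_pow h)
    omega
  have h3 : u0 (nrE L (1 + (p : 𝓞 L) * tF3 L * algebraMap (𝓞 K') (𝓞 L) ζ)) = wA ∨
      u0 (nrE L (1 + (p : 𝓞 L) * tF3 L * algebraMap (𝓞 K') (𝓞 L) ζ)) = wA ^ 2 := by
    rw [h1, xq_nrE_tower, xq_u0_pow, hn]
    exact xq_wA_pow hpn (xq_u0_special hp h5 hζ hK)
  refine ⟨_, h3, ?_⟩
  have h4 : u0 (nrE L (1 + (p : 𝓞 L) * tF3 L * algebraMap (𝓞 K') (𝓞 L) ζ)) ≠ 0 := by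
    rcases h3 with h3 | h3 <;>
    · rw [h3]
      decide +kernel
  obtain ⟨c, hc⟩ := u0_congr h4
  exact ⟨c, by
    conv_lhs =>
      enter [1]
      rw [hc]
    ring⟩

/-- a prime factor of `p` divides neither `ω - 1` nor `ω ^ 2 - 1` -/
lemma xq_not_dvd (hp : p.Prime) (h5 : 5 ≤ p) {π : EA} (hπ : Prime π) (hπp : π ∣ (p : EA))
    {u : EA} (hu : u = wA ∨ u = wA ^ 2) : ¬ π ∣ u - 1 := by
  intro h
  have h3 : π ∣ (3 : EA) := by
    have e : (u - 1) * star (u - 1) = 3 := by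
      rcases hu with rfl | rfl <;> decide +kernel
    rw [← e]
    exact h.mul_right _
  apply hπ.not_unit
  rw [isUnit_iff_dvd_one]
  rcases xq_mod_three hp h5 with hm | hm
  · obtain ⟨k, hk⟩ : ∃ k, p = 3 * k + 1 := ⟨p / 3, by omega⟩
    have e : (1 : EA) = (p : EA) - 3 * (k : EA) := by
      rw [hk]
      push_cast
      ring
    rw [e]
    exact dvd_sub hπp (h3.mul_right _)
  · obtain ⟨k, hk⟩ : ∃ k, p = 3 * k + 2 := ⟨p / 3, by omega⟩
    have e : (1 : EA) = 3 * ((k : EA) + 1) - (p : EA) := by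
      rw [hk]
      push_cast
      ring
    rw [e]
    exact dvd_sub (h3.mul_right _) hπp

/-- good primes -/
theorem exists_good (hp : p.Prime) (h5 : 5 ≤ p) {ζ : K'} (hζ : IsPrimitiveRoot ζ p)
    (hK : Module.finrank kk K' = p - 1) (hL : ∃ n, Module.finrank K' L = p ^ n) (N M : ℕ) :
    ∃ q : ℕ, ∃ P : Ideal (𝓞 L), Pool.Agent.helper50.T3.GP (Sp p N) M q P := by
  classical
  obtain ⟨π, hπ, hπp⟩ : ∃ π : EA, Prime π ∧ π ∣ (p : EA) := by
    have h1 : (p : EA) ≠ 0 := by exact_mod_cast hp.ne_zero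
    have h2 : ¬ IsUnit (p : EA) := by
      intro h
      have h3 : IsUnit (QuadraticAlgebra.norm (p : EA)) := h.map QuadraticAlgebra.norm
      have h4 : QuadraticAlgebra.norm (p : EA) = ((p ^ 2 : ℕ) : ℤ) := by
        have e : ((p : ℕ) : EA) = ((p : ℤ) : EA) := by simp
        rw [e, norm_def]
        simp [pow_two]
      rw [h4, Int.isUnit_iff] at h3
      have h6 : 5 ^ 2 ≤ p ^ 2 := Nat.pow_le_pow_left h5 2
      omega
    obtain ⟨π, h3, h4⟩ := WfDvdMonoid.exists_irreducible_factor h2 h1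
    exact ⟨π, h3.prime, h4⟩
  have : NeZero p := ⟨hp.ne_zero⟩
  set z : 𝓞 K' := hζ.toInteger with hz
  have hzp : IsPrimitiveRoot z p := hζ.toInteger_isPrimitiveRoot
  set y : 𝓞 L := algebraMap (𝓞 K') (𝓞 L) z with hy
  have hyp : IsPrimitiveRoot y p :=
    hzp.map_of_injective (FaithfulSMul.algebraMap_injective (𝓞 K') (𝓞 L))
  set θ₀ : 𝓞 L := 1 + (p : 𝓞 L) * tF3 L * y with hθ₀
  have h3p : 3 * p ≠ 0 := by have := hp.ne_zero; omega
  obtain ⟨γ, hθ⟩ := exists_theta_gen θ₀ (3 * p) h3p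
  set θ : 𝓞 L := θ₀ + ((3 * p : ℕ) : 𝓞 L) * γ with hθdef
  obtain ⟨d, hd0, hd⟩ := Pool.Agent.helper95.Tow.exists_conductor hθ
  have hM0 : d.natAbs * (N + M + 3).factorial ≠ 0 :=
    mul_ne_zero (Int.natAbs_ne_zero.2 hd0) (Nat.factorial_ne_zero _)
  obtain ⟨k, c₁, hc₁, hkc₁⟩ := Nat.exists_eq_pow_mul_and_not_dvd hM0 3 (by norm_num)
  have hc₁0 : c₁ ≠ 0 := by
    rintro rfl
    exact hc₁ (dvd_zero _)
  obtain ⟨k', c, hc, hkc⟩ := Nat.exists_eq_pow_mul_and_not_dvd hc₁0 p (by omega)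
  have hc3 : ¬ 3 ∣ c := fun h => hc₁ (by rw [hkc]; exact Dvd.dvd.mul_left h _)
  obtain ⟨j, hj⟩ := xq_sub_one_pow_mod c p hp (by omega) hc3
  set m : ℤ := (c : ℤ) ^ (p - 1) with hm
  set α : 𝓞 L := 1 + (m : 𝓞 L) * (θ - 1) with hα
  have hαp : ((p : ℤ) : 𝓞 L) ∣ α - 1 := ⟨m * (tF3 L * y + 3 * γ), by
    rw [hα, hθdef, hθ₀]; push_cast; ring⟩
  have hα3 : ((3 : ℤ) : 𝓞 L) ∣ α - θ₀ := by
    have h1 : (m : 𝓞 L) = 1 + 3 * (j : 𝓞 L) := by
      have h2 : m = 1 + 3 * j := by linarith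
      rw [h2]
      push_cast
      ring
    refine ⟨j * (θ - 1) + p * γ, ?_⟩
    rw [hα, h1, hθdef]
    push_cast
    ring
  have hNp := Pool.Agent.helper95.Tow.nrE_congr (by exact_mod_cast hp.ne_zero) hαp
  have hN3 := Pool.Agent.helper95.Tow.nrE_congr (by norm_num) hα3
  rw [Pool.Agent.helper95.Tow.nrE_one] at hNp
  push_cast at hN3 hNp
  obtain ⟨u, hu1, hsp⟩ := nrE_special hp h5 hzp hK hL (L := L)
  have hu0 : u0 u = u := by
    rcases hu1 with rfl | rfl <;> decide +kernel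
  have hN3' : (3 : EA) ∣ nrE L α - u := by
    have := dvd_add hN3 hsp
    rwa [sub_add_sub_cancel] at this
  have hu : u0 (nrE L α) = u := by
    obtain ⟨b, hb⟩ := hN3'
    rw [show nrE L α = u + 3 * b by rw [← hb]; ring, u0_add_three, hu0]
  have hw0 : u ≠ 0 := by
    rcases hu1 with rfl | rfl <;> decide +kernel
  have hα0 : α ≠ 0 := by
    intro h
    rw [h, Pool.Agent.helper95.Tow.nrE_zero, u0_zero] at hu
    exact hw0 hu.symm
  have hI0 : Ideal.span {α} ≠ ⊥ := by rwa [Ne, Ideal.span_singleton_eq_bot]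
  have hps : psF L (Ideal.span {α}) = toC (u * star (nrE L α)) := by
    rw [psF_span, psb, U, hu, conj_toC, map_mul]
  have key : ∃ Q : Ideal (𝓞 L), Q.IsPrime ∧ α ∈ Q ∧ Q ≠ ⊥ ∧
      ¬ π ∣ Pool.Agent.helper95.Tow.psv L Q - 1 := by
    by_contra hcon
    push Not at hcon
    have h1 : psF L (Ideal.span {α}) =
        toC ((UniqueFactorizationMonoid.normalizedFactors (Ideal.span {α})).map
          (Pool.Agent.helper95.Tow.psv L)).prod := by
      rw [map_multiset_prod, Multiset.map_map]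
      conv_lhs => rw [← Ideal.prod_normalizedFactors_eq_self hI0, map_multiset_prod]
      congr 1
      refine Multiset.map_congr rfl fun Q _ => ?_
      exact (Pool.Agent.helper95.Tow.toC_psv Q).symm
    rw [hps] at h1
    have h2 := toC_injective h1
    have h3 : π ∣
        ((UniqueFactorizationMonoid.normalizedFactors (Ideal.span {α})).map
          (Pool.Agent.helper95.Tow.psv L)).prod - 1 := by
      rw [← Ideal.mem_span_singleton, ← Ideal.Quotient.eq, map_multiset_prod, Multiset.map_map,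
        map_one]
      refine Multiset.prod_eq_one fun y hy => ?_
      obtain ⟨Q, hQ, rfl⟩ := Multiset.mem_map.1 hy
      have hQ0 : Q ≠ ⊥ := fun h =>
        UniqueFactorizationMonoid.zero_notMem_normalizedFactors (Ideal.span {α}) (by
          rwa [h] at hQ)
      rw [Ideal.mem_normalizedFactors_iff hI0, Ideal.span_singleton_le_iff_mem] at hQ
      have h4 := hcon Q hQ.1 hQ.2 hQ0
      rw [← Ideal.mem_span_singleton, ← Ideal.Quotient.eq, map_one] at h4
      exact h4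
    rw [← h2] at h3
    have h6' : (p : EA) ∣ star (nrE L α) - 1 := by
      obtain ⟨b, hb⟩ := hNp
      refine ⟨star b, ?_⟩
      have h6 := congrArg star hb
      rw [star_sub, star_one, star_mul] at h6
      rw [h6, mul_comm]
      congr 1
    have h7 : π ∣ u * (star (nrE L α) - 1) := Dvd.dvd.mul_left (hπp.trans h6') _
    have h8 := dvd_sub h3 h7
    have h9 : u * star (nrE L α) - 1 - u * (star (nrE L α) - 1) = u - 1 := by ring
    rw [h9] at h8
    exact xq_not_dvd hp h5 hπ hπp hu1 h8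
  obtain ⟨Q, hQ, hαQ, hQ0, hQ2⟩ := key
  have hmQ : ((m : ℤ) : 𝓞 L) ∉ Q := fun hm => hQ.ne_top <| (Ideal.eq_top_iff_one Q).2 <| by
    have := Q.sub_mem hαQ (Q.mul_mem_right (θ - 1) hm)
    simpa [hα] using this
  have hcQ : (c : 𝓞 L) ∉ Q := fun h => hmQ <| by
    rw [hm]
    push_cast
    exact Ideal.pow_mem_of_mem Q h _ (by omega)
  have hpQ : (p : 𝓞 L) ∉ Q := fun h => hQ.ne_top <| (Ideal.eq_top_iff_one Q).2 <| by
    obtain ⟨b, hb⟩ := hαp
    push_cast at hb
    have := Q.sub_mem hαQ (Q.mul_mem_right b h)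
    rw [← hb] at this
    simpa using this
  have ht2 : tF3 L * tF3 L = -3 := by
    rw [tF3, ← map_mul, show tau * tau = -3 by decide +kernel, map_neg, map_ofNat]
  have h3Q : (3 : 𝓞 L) ∉ Q := fun h => hQ.ne_top <| (Ideal.eq_top_iff_one Q).2 <| by
    have h1 : tF3 L ∈ Q := by
      have h2 : tF3 L * tF3 L ∈ Q := by
        rw [ht2]
        exact Q.neg_mem h
      rcases hQ.mem_or_mem h2 with h3 | h3 <;> exact h3
    have h4 : α = 1 + (tF3 L * (m * p * y) + 3 * (m * p * γ)) := by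
      rw [hα, hθdef, hθ₀]
      push_cast
      ring
    have h5' := Q.sub_mem hαQ (Q.add_mem (Q.mul_mem_right (m * p * y : 𝓞 L) h1)
      (Q.mul_mem_right (m * p * γ : 𝓞 L) h))
    rw [h4] at h5'
    simpa using h5'
  have hM0Q : ((d.natAbs * (N + M + 3).factorial : ℕ) : 𝓞 L) ∉ Q := by
    rw [hkc₁, hkc]
    push_cast
    intro h
    rcases hQ.mem_or_mem h with h | h
    · exact h3Q (hQ.mem_of_pow_mem _ h)
    · rcases hQ.mem_or_mem h with h | h
      · exact hpQ (hQ.mem_of_pow_mem _ h)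
      · exact hcQ h
  have hdQ : (d : 𝓞 L) ∉ Q := by
    intro h
    apply hM0Q
    rw [Nat.cast_mul]
    refine Q.mul_mem_right _ ?_
    rw [← Int.cast_natCast (R := 𝓞 L), Int.natCast_natAbs]
    rcases abs_choice d with h1 | h1
    · rwa [h1]
    · rw [h1, Int.cast_neg]
      exact Q.neg_mem h
  have hq := Pool.Agent.helper95.Tow.prime_of_surj hQ hQ0
    (Pool.Agent.helper95.Tow.surj_of_mem hd hQ hQ0 hαQ hdQ)
  obtain ⟨q, hqN⟩ : ∃ q, Ideal.absNorm Q = q := ⟨_, rfl⟩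
  rw [hqN] at hq
  have hmem : (q : 𝓞 L) ∈ Q := by
    rw [← hqN]
    exact Ideal.absNorm_mem Q
  have hlt : N + M + 3 < q := by
    by_contra hle
    apply hM0Q
    obtain ⟨b, hb⟩ := (hq.dvd_factorial (n := N + M + 3)).2 (by omega)
    rw [hb]
    push_cast
    exact Q.mul_mem_left _ (Q.mul_mem_right _ hmem)
  have hqp : q ≠ p := by
    rintro rfl
    exact hpQ hmem
  have hun := Pool.Agent.helper50.T3.absNorm_under hQ hq hqN
  have hv : (Q.under (𝓞 kk)).IsPrime := inferInstance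
  obtain ⟨lam, hlam, hlam1, hspan, hnE⟩ := exists_lam hv hq (by omega) hun.1
  have hpsv : Pool.Agent.helper95.Tow.psv L Q = star lam := by
    apply toC_injective
    rw [Pool.Agent.helper95.Tow.toC_psv, psF_apply, hun.2, hspan, psI_span, psb_of_u0 hlam1,
      conj_toC]
  rw [hpsv] at hQ2
  have hq1 : π ∣ lam * star lam - 1 := by
    obtain ⟨b, hb⟩ := xq_dvd_norm_sub_one hp hyp hQ hq hqN hqp
    have h1 : lam * star lam = (q : EA) := by
      have := QuadraticAlgebra.algebraMap_norm_eq_mul_star lam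
      rw [hlam] at this
      rw [← this]
      simp
    have h2 : (q : EA) = (p : EA) * b + 1 := by
      have h3 : q = p * b + 1 := by have := hq.one_lt; omega
      rw [h3]
      push_cast
      ring
    rw [h1, h2, add_sub_cancel_right]
    exact hπp.mul_right _
  have hlamπ : ¬ π ∣ lam - 1 := by
    intro h
    apply hQ2
    have h1 := dvd_sub hq1 (h.mul_right (star lam))
    have h2 : lam * star lam - 1 - (lam - 1) * star lam = star lam - 1 := by ring
    rwa [h2] at h1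
  have hnd : ¬ p ∣ nEP (Q.under (𝓞 kk)) := by
    intro h
    have h1 : (p : ℤ) ∣ norm (lam - 1) := by
      rw [← hnE]
      exact_mod_cast h
    have h2 : π ∣ (lam - 1) * star (lam - 1) := by
      obtain ⟨b, hb⟩ := h1
      have h3 := QuadraticAlgebra.algebraMap_norm_eq_mul_star (lam - 1)
      rw [hb] at h3
      rw [← h3]
      refine hπp.trans ⟨(b : EA), ?_⟩
      simp
    rcases hπ.dvd_or_dvd h2 with h4 | h4
    · exact hlamπ h4
    · rw [star_sub, star_one] at h4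
      exact hQ2 h4
  refine ⟨q, Q, hq, by omega, ⟨?_, ?_, ?_, hnd⟩, hQ, hqN⟩
  · rw [hun.1]
    exact hq
  · rw [hun.1]
    omega
  · intro h
    apply hpQ
    rw [Ideal.mem_under, map_natCast] at h
    exact h

end Pool.Agent.helper10.PI.Ex
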