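import Mathlib
import Pool.Agent.helper10.PI.X.Q
import Pool.Agent.helper10.PT.X.M

set_option autoImplicit false

/-!
# Silent Galois extensions of `ℚ(ω)` with large Galois groups of `p`-power order, all `p ≥ 5`
-/

namespace Pool.Agent.helper10.PI.Ex

open NumberField QuadraticAlgebra Pool.Agent.helper77.BSD Pool.Agent.helper77.Tow
  Pool.Agent.helper76.T3
open Pool.Agent.helper50.T3 (res res_commutes card_inertia map_le_sq_iff)
open Pool.Agent.helper10.PT
open Pool.Agent.helper10.PT.Ex (Sp Cmp exists_central exists_embed field_step Cp card_Cp rs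
  exists_rs res_rs res_fixedField_eq_one mem_of_res_fixedField inertia_quot silent_aboveP)

variable {p : ℕ}

universe u

/-- every finite `p`-group embeds in the Galois group over `K'` of a silent field -/
theorem exists_field (hp : p.Prime) (h5 : 5 ≤ p) {K' : Type} [Field K'] [NumberField K'] [Algebra kk K']
    [IsGalois kk K'] {ζ : K'} (hζ : IsPrimitiveRoot ζ p) (hK : Module.finrank kk K' = p - 1)
    (hcyc : IsCyclic Gal(K'/kk)) (N n : ℕ) :
    ∀ (G : Type u) [Group G], Nat.card G = p ^ n →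
    ∃ (L : Type) (_ : Field L) (_ : NumberField L) (_ : Algebra kk L) (_ : Algebra K' L)
      (_ : IsScalarTower kk K' L) (_ : IsGalois kk L) (D : Subgroup Gal(L/kk)),
      Cmp kk K' L D ∧ (∃ m, Module.finrank K' L = p ^ m) ∧
      (∀ P : Ideal (𝓞 L), P.IsPrime → P ≠ ⊥ →
        P.inertia Gal(L/kk) ≤ D ∨ Sp p N (P.under (𝓞 kk))) ∧
      ∃ Θ : G →* Gal(L/K'), Function.Injective Θ := by
  have hcop : (Nat.card Gal(K'/kk)).Coprime p := by
    rw [IsGalois.card_aut_eq_finrank, hK]
    exact ((Nat.coprime_self_sub_left hp.pos).2 (Nat.coprime_one_left p))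
  induction n with
  | zero =>
    intro G _ hG
    have hres : ∀ g : Gal(K'/kk), res kk K' g = g := by
      intro g
      ext x
      exact res_commutes (K := kk) (L := K') g x
    refine ⟨K', inferInstance, inferInstance, inferInstance, inferInstance, inferInstance,
      inferInstance, ⊤, ⟨inferInstance, ?_, ?_⟩, ⟨0, ?_⟩, ?_, 1, ?_⟩
    · intro d _ hd
      rwa [hres] at hd
    · intro g
      exact ⟨g, trivial, hres g⟩
    · rw [pow_zero]
      exact Module.finrank_self K'
    · intro P _ _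
      exact Or.inl le_top
    · have hs : Subsingleton G := by
        rw [pow_zero] at hG
        exact (Nat.card_eq_one_iff_unique.1 hG).1
      exact Function.injective_of_subsingleton _
  | succ n ih =>
    intro G _ hG
    obtain ⟨Z, hZn, hZ, hZq⟩ := exists_central hp hG
    obtain ⟨L, i1, i2, i3, i4, i5, i6, D, hD, hL, hS, Θ, hΘ⟩ := ih (G ⧸ Z) hZq
    obtain ⟨L₁, j1, j2, j3, j4, j5, j6, D₁, hD₁, hL₁, hS₁, ⟨e⟩⟩ :=
      field_step hp hD hcyc hcop hζ hL (Sp p N) hS (exists_good hp h5 hζ hK hL N)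
    let ρ : G →* Gal(L/K') := Θ.comp (QuotientGroup.mk' Z)
    have hker : ρ.ker = Z := by
      ext x
      rw [MonoidHom.mem_ker, MonoidHom.comp_apply, ← map_one Θ, hΘ.eq_iff,
        QuotientGroup.mk'_apply, QuotientGroup.eq_one_iff]
    obtain ⟨Ψ, hΨ⟩ := exists_embed (C := Cp p K') hp (card_Cp hp hζ) ρ (by rw [hker]; exact hZ)
    exact ⟨L₁, j1, j2, j3, j4, j5, j6, D₁, hD₁, hL₁, hS₁, e.symm.toMonoidHom.comp Ψ,
      e.symm.injective.comp hΨ⟩

/-- X1: silent extensions of `ℚ(ω)` of `p`-power degree realizing any finite `p`-group over an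
intermediate field, with ramified primes of norm greater than `N` -/
theorem exists_silentP (hp : p.Prime) (h5 : 5 ≤ p) (N n : ℕ) (G : Type) [Group G] (hG : Nat.card G = p ^ n) :
    ∃ (L : Type) (_ : Field L) (_ : NumberField L) (_ : Algebra kk L), IsGalois kk L ∧
      (∃ m, Module.finrank kk L = p ^ m) ∧ SilentP p L ∧
      (∀ P : Ideal (𝓞 L), P.IsPrime → P ≠ ⊥ → RamP L P → N < Ideal.absNorm P) ∧
      ∃ K : IntermediateField kk L, Nonempty ((L ≃ₐ[K] L) ≃* G) := by
  obtain ⟨K', k1, k2, k3, ζ, hK'g, hζ, hK, hcyc⟩ := exists_cyc hp h5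
  obtain ⟨L, i1, i2, i3, i4, i5, i6, D, hD, ⟨m, hm⟩, hS, Θ, hΘ⟩ :=
    exists_field hp h5 hζ hK hcyc N n G hG
  have hDn := hD.normal
  have hg1 : IsGalois K' L := IsGalois.tower_top_of_isGalois kk K' L
  set F := IntermediateField.fixedField D with hF
  have hgF : IsGalois kk F := IsGalois.of_fixedField_normal_subgroup D
  -- the Galois group of `F`
  let ρ : Gal(L/K') →* Gal(F/kk) := (res kk F).comp (rs kk)
  have hρi : Function.Injective ρ := by
    rw [injective_iff_map_eq_one]
    intro τ hτ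
    have h1 : rs kk τ ∈ D := mem_of_res_fixedField D hτ
    have h2 := hD.inj _ h1 (res_rs τ)
    exact AlgEquiv.restrictScalarsHom_injective (R := kk) (h2.trans (map_one _).symm)
  have hρs : Function.Surjective ρ := by
    intro g
    obtain ⟨g', hg'⟩ := Pool.Agent.helper50.T3.res_surjective (K := kk) (L := F) (L₁ := L) g
    obtain ⟨τ, d, hd, rfl⟩ := hD.exists_mul g'
    refine ⟨τ, ?_⟩
    rw [map_mul, res_fixedField_eq_one D hd, mul_one] at hg'
    exact hg'
  let e : Gal(L/K') ≃* Gal(F/kk) := MulEquiv.ofBijective ρ ⟨hρi, hρs⟩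
  have hfin : ∃ m, Module.finrank kk F = p ^ m := by
    refine ⟨m, ?_⟩
    rw [← IsGalois.card_aut_eq_finrank, ← Nat.card_congr e.toEquiv,
      IsGalois.card_aut_eq_finrank, hm]
  have hram : ∀ P : Ideal (𝓞 F), P.IsPrime → P ≠ ⊥ → RamP F P → Sp p N (P.under (𝓞 kk)) := by
    intro P hP hP0 hr
    have h1 : P.inertia Gal(F/kk) ≠ ⊥ := (map_le_sq_iff hP hP0).1 hr
    obtain ⟨⟨Q, hQ⟩⟩ := (inferInstance : Nonempty (Ideal.primesOver P (𝓞 L)))
    have hQ1 := hQ.1
    have hQ2 := hQ.2
    have hQ0 : Q ≠ ⊥ := Ideal.ne_bot_of_liesOver_of_ne_bot hP0 Q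
    have hunder : Q.under (𝓞 F) = P := (Ideal.over_def Q P).symm
    rcases hS Q hQ1 hQ0 with h2 | h2
    · have h3 := inertia_quot D hQ1 hQ0 h2
      rw [← hF, hunder] at h3
      exact absurd h3 h1
    · have h3 : Q.under (𝓞 kk) = P.under (𝓞 kk) := by
        rw [← hunder]
        exact (Ideal.under_under (B := 𝓞 F) Q).symm
      rwa [h3] at h2
  refine ⟨F, inferInstance, inferInstance, inferInstance, hgF, hfin, ?_, ?_,
    IntermediateField.fixedField (e.toMonoidHom.comp Θ).range, ⟨?_⟩⟩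
  · intro P hP hP0 hr
    exact (silent_aboveP hp hfin hP hP0 (hram P hP hP0 hr)).2
  · intro P hP hP0 hr
    exact (silent_aboveP hp hfin hP hP0 (hram P hP hP0 hr)).1
  · set Θ' : G →* Gal(F/kk) := e.toMonoidHom.comp Θ with hΘ'
    have hΘ'i : Function.Injective Θ' := e.injective.comp hΘ
    have e1 := IntermediateField.fixingSubgroupEquiv (IntermediateField.fixedField Θ'.range)
    have e2 : (IntermediateField.fixedField Θ'.range).fixingSubgroup = Θ'.range :=
      IntermediateField.fixingSubgroup_fixedField Θ'.range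
    exact e1.symm.trans ((MulEquiv.subgroupCongr e2).trans (MonoidHom.ofInjective hΘ'i).symm)

end Pool.Agent.helper10.PI.Ex
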